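import Pool.Agent.T9h98.EP.Defs

/-!
# Project EP, piece E8: the root datum of `E₈`

Author: helper63.
-/

set_option autoImplicit false

open Set
open scoped RealInnerProductSpace

namespace Pool.Agent.T9h63.EP

open Pool.Agent.T9h98.DC Pool.Agent.T9h98.EP

/-- the simple roots -/
def A : Fin 8 → Fin 8 → ℤ :=
  ![![1, -1, -1, -1, -1, -1, -1, 1],
    ![-2, 2, 0, 0, 0, 0, 0, 0],
    ![0, -2, 2, 0, 0, 0, 0, 0],
    ![2, 2, 0, 0, 0, 0, 0, 0],
    ![0, 0, -2, 2, 0, 0, 0, 0],
    ![0, 0, 0, -2, 2, 0, 0, 0],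
    ![0, 0, 0, 0, -2, 2, 0, 0],
    ![0, 0, 0, 0, 0, -2, 2, 0]]

/-- integral vectors as elements of `R^8` -/
noncomputable def em (z : Fin 8 → ℤ) : E 8 := WithLp.toLp 2 fun i => (z i : ℝ)

lemma em_apply (z : Fin 8 → ℤ) (i : Fin 8) : em z i = (z i : ℝ) := rfl

lemma em_sub_smul (z w : Fin 8 → ℤ) (m : ℤ) : em z - (m : ℝ) • em w = em (z - m • w) := by
  ext i
  simp [em_apply]

lemma inner_em (z w : Fin 8 → ℤ) : ⟪em z, em w⟫ = ((∑ i, z i * w i : ℤ) : ℝ) := by
  rw [PiLp.inner_apply]
  push_cast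
  refine Finset.sum_congr rfl fun i _ => ?_
  simp [em_apply, mul_comm]

/-- the conditions for the integral vectors -/
def Ok (z : Fin 8 → ℤ) : Prop :=
  ∑ i, z i * z i = 16 ∧ (∀ i, (z i - z 0) % 2 = 0) ∧ (∑ i, z i) % 4 = 0

/-- the vertices -/
def VV : Set (E 8) := em '' {z | Ok z}

lemma fin_VV : VV.Finite := by
  apply Set.Finite.image
  refine Set.Finite.subset (Set.finite_Icc (fun _ : Fin 8 => (-4 : ℤ)) fun _ => 4) ?_
  intro z hz
  have h1 : ∀ i, z i * z i ≤ 16 := by
    intro i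
    rw [← hz.1]
    exact Finset.single_le_sum (f := fun i => z i * z i) (fun j _ => mul_self_nonneg _)
      (Finset.mem_univ i)
  constructor
  · intro i
    have := h1 i
    show -4 ≤ z i
    nlinarith
  · intro i
    have := h1 i
    show z i ≤ 4
    nlinarith

lemma sum_eight (f : Fin 8 → ℤ) :
    ∑ i, f i = f 0 + f 1 + f 2 + f 3 + f 4 + f 5 + f 6 + f 7 := Fin.sum_univ_eight f

lemma refl_ok (i : Fin 8) (z : Fin 8 → ℤ) (hz : Ok z) :
    ∃ m : ℤ, ∑ k, z k * A i k = 4 * m ∧ Ok (z - m • A i) := by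
  obtain ⟨h1, h2, h3⟩ := hz
  have p1 := h2 1
  have p2 := h2 2
  have p3 := h2 3
  have p4 := h2 4
  have p5 := h2 5
  have p6 := h2 6
  have p7 := h2 7
  rw [sum_eight] at h1 h3
  have key : ∃ m : ℤ, ∑ k, z k * A i k = 4 * m := by
    refine ⟨(∑ k, z k * A i k) / 4, ?_⟩
    rw [sum_eight]
    fin_cases i <;> simp [A] <;> omega
  obtain ⟨m, hm⟩ := key
  refine ⟨m, hm, ?_, ?_, ?_⟩
  · have hN' : ∀ i : Fin 8, ∑ k, A i k * A i k = 8 := by decide
    have hN := hN' i
    have : ∑ k, (z - m • A i) k * (z - m • A i) k =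
        ∑ k, z k * z k - 2 * m * (∑ k, z k * A i k) + m * m * ∑ k, A i k * A i k := by
      rw [Finset.mul_sum, Finset.mul_sum, ← Finset.sum_sub_distrib, ← Finset.sum_add_distrib]
      refine Finset.sum_congr rfl fun k _ => ?_
      simp only [Pi.sub_apply, Pi.smul_apply, smul_eq_mul]
      ring
    rw [this, hm, hN, sum_eight, h1]
    ring
  · intro k
    have h4 : ∀ i k : Fin 8, (A i k - A i 0) % 2 = 0 := by decide
    have h5 := h4 i k
    have h6 := h2 k
    simp only [Pi.sub_apply, Pi.smul_apply, smul_eq_mul]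
    have h7 : z k - m * A i k - (z 0 - m * A i 0) = (z k - z 0) - m * (A i k - A i 0) := by ring
    rw [h7]
    obtain ⟨a, ha⟩ := Int.dvd_of_emod_eq_zero h5
    obtain ⟨b, hb⟩ := Int.dvd_of_emod_eq_zero h6
    rw [ha, hb]
    have : 2 * b - m * (2 * a) = 2 * (b - m * a) := by ring
    rw [this]
    exact Int.mul_emod_right 2 _
  · have h4 : ∀ i : Fin 8, (∑ k, A i k) % 4 = 0 := by decide
    have h5 := h4 i
    have h6 : ∑ k, (z - m • A i) k = ∑ k, z k - m * ∑ k, A i k := by
      rw [Finset.mul_sum, ← Finset.sum_sub_distrib]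
      refine Finset.sum_congr rfl fun k _ => ?_
      simp only [Pi.sub_apply, Pi.smul_apply, smul_eq_mul]
    rw [h6]
    obtain ⟨a, ha⟩ := Int.dvd_of_emod_eq_zero h5
    obtain ⟨b, hb⟩ := Int.dvd_of_emod_eq_zero h3
    rw [ha, sum_eight, hb]
    have : 4 * b - m * (4 * a) = 4 * (b - m * a) := by ring
    rw [this]
    exact Int.mul_emod_right 4 _

/-- the only dominant vector -/
lemma dom_ok (z : Fin 8 → ℤ) (hz : Ok z) (h : ∀ i, 0 ≤ ∑ k, z k * A i k) :
    z = ![0, 0, 0, 0, 0, 0, 0, 4] := by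
  obtain ⟨h1, h2, h3⟩ := hz
  have p1 := h2 1
  have p2 := h2 2
  have p3 := h2 3
  have p4 := h2 4
  have p5 := h2 5
  have p6 := h2 6
  have p7 := h2 7
  have q0 := h 0
  have q1 := h 1
  have q2 := h 2
  have q3 := h 3
  have q4 := h 4
  have q5 := h 5
  have q6 := h 6
  have q7 := h 7
  rw [sum_eight] at h1 h3 q0 q1 q2 q3 q4 q5 q6 q7
  simp [A] at q0 q1 q2 q3 q4 q5 q6 q7
  have hz : ∀ a b c d e f g h : ℤ, z 0 = a → z 1 = b → z 2 = c → z 3 = d → z 4 = e → z 5 = f →
      z 6 = g → z 7 = h → (a = 0 ∧ b = 0 ∧ c = 0 ∧ d = 0 ∧ e = 0 ∧ f = 0 ∧ g = 0 ∧ h = 4) →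
      z = ![0, 0, 0, 0, 0, 0, 0, 4] := by
    rintro a b c d e f g h rfl rfl rfl rfl rfl rfl rfl rfl ⟨e0, e1, e2, e3, e4, e5, e6, e7⟩
    ext i
    fin_cases i <;> simp [e0, e1, e2, e3, e4, e5, e6, e7]
  refine hz _ _ _ _ _ _ _ _ rfl rfl rfl rfl rfl rfl rfl rfl ?_
  clear hz h2 h
  generalize z 0 = a at *
  generalize z 1 = b at *
  generalize z 2 = c at *
  generalize z 3 = d at *
  generalize z 4 = e at *
  generalize z 5 = f at *
  generalize z 6 = g at *
  generalize z 7 = h at *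
  by_cases h7 : 4 ≤ h
  · have s7 : 16 ≤ h * h := by nlinarith
    have s0 := mul_self_nonneg a
    have s1 := mul_self_nonneg b
    have s2 := mul_self_nonneg c
    have s3 := mul_self_nonneg d
    have s4 := mul_self_nonneg e
    have s5 := mul_self_nonneg f
    have s6 := mul_self_nonneg g
    refine ⟨mul_self_eq_zero.1 (by omega), mul_self_eq_zero.1 (by omega),
      mul_self_eq_zero.1 (by omega), mul_self_eq_zero.1 (by omega),
      mul_self_eq_zero.1 (by omega), mul_self_eq_zero.1 (by omega),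
      mul_self_eq_zero.1 (by omega), ?_⟩
    have : h * h ≤ 16 := by omega
    nlinarith
  · exfalso
    have e2 : c = 0 := by omega
    have e1 : b = 0 := by omega
    have e0 : a = 0 := by omega
    have e3 : d = 0 := by omega
    have e4 : e = 0 := by omega
    have e5 : f = 0 := by omega
    subst e0 e1 e2 e3 e4 e5
    have g1 : 0 ≤ g := by omega
    have g2 : g ≤ 2 := by omega
    have h1' : 0 ≤ h := by omega
    have h2 : h ≤ 2 := by omega
    nlinarith

lemma lin_A : LinearIndependent ℝ fun i => em (A i) := by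
  rw [Fintype.linearIndependent_iff]
  intro g hg
  have h : ∀ k, ∑ i, g i * (A i k : ℝ) = 0 := by
    intro k
    have := congrArg (fun v : E 8 => v k) hg
    simpa [em_apply] using this
  have h0 := h 0
  have h1 := h 1
  have h2 := h 2
  have h3 := h 3
  have h4 := h 4
  have h5 := h 5
  have h6 := h 6
  have h7 := h 7
  simp [Fin.sum_univ_eight, A] at h0 h1 h2 h3 h4 h5 h6 h7
  have g0 : g 0 = 0 := by linarith
  have g7 : g 7 = 0 := by linarith
  have g6 : g 6 = 0 := by linarith
  have g5 : g 5 = 0 := by linarith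
  have g4 : g 4 = 0 := by linarith
  have g2 : g 2 = 0 := by linarith
  have g1 : g 1 = 0 := by linarith
  have g3 : g 3 = 0 := by linarith
  intro i
  fin_cases i
  · exact g0
  · exact g1
  · exact g2
  · exact g3
  · exact g4
  · exact g5
  · exact g6
  · exact g7

theorem e8 : S_E8 :=
  ⟨{ α := fun i => em (A i)
     ω := em ![0, 0, 0, 0, 0, 0, 0, 4]
     V := VV
     c := 4
     cpos := by norm_num
     hd := by norm_num
     norm := by
       intro i
       rw [inner_em]
       have h : ∀ i : Fin 8, ∑ k, A i k * A i k = 8 := by decide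
       rw [h i]
       norm_num
     adj := by
       intro i j hij
       rw [inner_em]
       have h : ∀ i j : Fin 8, j < i → ∑ k, A i k * A j k =
           if ((i : ℕ) = 4 ∧ (j : ℕ) = 2) ∨ ((i : ℕ) ≠ 4 ∧ (j : ℕ) + 1 = i) then -4 else 0 := by
         decide
       rw [h i j hij]
       split_ifs <;> norm_num
     lin := lin_A
     fin := fin_VV
     mem := ⟨_, by unfold Ok; decide, rfl⟩
     nrm := by
       have h : ∀ z : Fin 8 → ℤ, Ok z → ‖em z‖ = 4 := by
         intro z hz
         have h1 : ‖em z‖ ^ 2 = 16 := by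
           rw [← real_inner_self_eq_norm_sq, inner_em, hz.1]
           norm_num
         nlinarith [norm_nonneg (em z)]
       rintro v ⟨z, hz, rfl⟩
       rw [h z hz, h _ (by unfold Ok; decide)]
     refl := by
       rintro i v ⟨z, hz, rfl⟩
       obtain ⟨m, hm, hok⟩ := refl_ok i z hz
       refine ⟨_, hok, ?_⟩
       rw [← em_sub_smul]
       congr 2
       rw [inner_em, hm]
       push_cast
       ring
     ring := by
       intro i
       rw [inner_em]
       have h : ∀ i : Fin 8, ∑ k, (![0, 0, 0, 0, 0, 0, 0, 4] : Fin 8 → ℤ) k * A i k =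
           if (i : ℕ) = 0 then 4 else 0 := by decide
       rw [h i]
       split_ifs <;> norm_num
     dom := by
       rintro v ⟨z, hz, rfl⟩ h
       congr 1
       refine dom_ok z hz fun i => ?_
       have := h i
       rw [inner_em] at this
       exact_mod_cast this }⟩

end Pool.Agent.T9h63.EP
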